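import Pool.Agent.LKU.Stmts

/-! # LKU row EXB: the example -/

set_option autoImplicit false

namespace Pool.Agent.LKU.H59

open Pool.Agent.LCK Pool.Agent.LKT Pool.Agent.LKU

/-- integer homogeneous coordinates of the eight points -/
def P : Fin 8 → Fin 4 → ℤ :=
  ![![0, 2, -6, -3], ![7, 0, 0, 0], ![7, -2, -6, 3], ![7, -4, 0, 0], ![7, 2, -3, -2],
    ![7, -1, -5, 4], ![7, -3, -2, -2], ![0, 6, 2, 3]]

/-- integer determinant -/
def dz (p q r s : Fin 4 → ℤ) : ℤ :=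
  p 0 * (q 1 * (r 2 * s 3 - r 3 * s 2) - q 2 * (r 1 * s 3 - r 3 * s 1) +
      q 3 * (r 1 * s 2 - r 2 * s 1)) -
    p 1 * (q 0 * (r 2 * s 3 - r 3 * s 2) - q 2 * (r 0 * s 3 - r 3 * s 0) +
      q 3 * (r 0 * s 2 - r 2 * s 0)) +
    p 2 * (q 0 * (r 1 * s 3 - r 3 * s 1) - q 1 * (r 0 * s 3 - r 3 * s 0) +
      q 3 * (r 0 * s 1 - r 1 * s 0)) -
    p 3 * (q 0 * (r 1 * s 2 - r 2 * s 1) - q 1 * (r 0 * s 2 - r 2 * s 0) +
      q 2 * (r 0 * s 1 - r 1 * s 0))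

theorem d4_eq (p q r s : Fin 4 → ℝ) : d4 p q r s =
    p 0 * (q 1 * (r 2 * s 3 - r 3 * s 2) - q 2 * (r 1 * s 3 - r 3 * s 1) +
      q 3 * (r 1 * s 2 - r 2 * s 1)) -
    p 1 * (q 0 * (r 2 * s 3 - r 3 * s 2) - q 2 * (r 0 * s 3 - r 3 * s 0) +
      q 3 * (r 0 * s 2 - r 2 * s 0)) +
    p 2 * (q 0 * (r 1 * s 3 - r 3 * s 1) - q 1 * (r 0 * s 3 - r 3 * s 0) +
      q 3 * (r 0 * s 1 - r 1 * s 0)) -
    p 3 * (q 0 * (r 1 * s 2 - r 2 * s 1) - q 1 * (r 0 * s 2 - r 2 * s 0) +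
      q 2 * (r 0 * s 1 - r 1 * s 0)) := by
  unfold d4
  rw [Matrix.det_succ_row_zero]
  simp [Fin.sum_univ_four, Matrix.det_fin_three, Fin.succAbove]
  ring

theorem d4_cast (a b c d : ℝ) (p q r s : Fin 4 → ℤ) :
    d4 (fun i => a * (p i : ℝ)) (fun i => b * (q i : ℝ)) (fun i => c * (r i : ℝ))
      (fun i => d * (s i : ℝ)) = a * b * c * d * ((dz p q r s : ℤ) : ℝ) := by
  rw [d4_eq]
  unfold dz
  push_cast
  ring

theorem signs : ∀ i < 53, 0 < (tb2 i).2.2.2.2 *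
    dz (P (tb2 i).1) (P (tb2 i).2.1) (P (tb2 i).2.2.1) (P (tb2 i).2.2.2.1) := by
  decide +kernel

/-- scaling factors -/
noncomputable def cf (G G' : ℝ) : Fin 8 → ℝ := ![G / 7, 1 / 7, 1 / 7, 1 / 7, 1 / 7, 1 / 7, 1 / 7, G' / 7]

/-- the example -/
noncomputable def ex (G G' : ℝ) : Fin 8 → E3 :=
  fun k => WithLp.toLp 2 ![cf G G' k * (P k 1 : ℝ), cf G G' k * (P k 2 : ℝ), cf G G' k * (P k 3 : ℝ)]

theorem hom_ex (G G' : ℝ) (k : Fin 8) : hom (ex G G') k = fun i => cf G G' k * (P k i : ℝ) := by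
  funext i
  fin_cases k <;> fin_cases i <;> simp [hom, ex, cf, P]

theorem cf_pos (G G' : ℝ) (h : 0 < G) (h' : 0 < G') (k : Fin 8) : 0 < cf G G' k := by
  fin_cases k <;> simp [cf] <;> assumption

theorem nrm (v : E3) (r : ℝ) (hr : 0 ≤ r) (h : v 0 ^ 2 + v 1 ^ 2 + v 2 ^ 2 = r ^ 2) : ‖v‖ = r := by
  rw [EuclideanSpace.norm_eq, Fin.sum_univ_three, Real.norm_eq_abs, Real.norm_eq_abs,
    Real.norm_eq_abs, sq_abs, sq_abs, sq_abs, h, Real.sqrt_sq hr]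

theorem exb : ExbStmt := by
  intro G G' h h'
  refine ⟨ex G G', ?_, ?_, ?_, ?_, ?_, ?_, ?_, ?_, ?_⟩
  · intro i hi
    unfold F2 D
    rw [hom_ex, hom_ex, hom_ex, hom_ex, d4_cast]
    have h1 := signs i hi
    have h2 : (0 : ℝ) < ((tb2 i).2.2.2.2 : ℝ) *
        ((dz (P (tb2 i).1) (P (tb2 i).2.1) (P (tb2 i).2.2.1) (P (tb2 i).2.2.2.1) : ℤ) : ℝ) := by
      exact_mod_cast h1
    have h3 := mul_pos (mul_pos (mul_pos (mul_pos (cf_pos G G' h h' (tb2 i).1)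
      (cf_pos G G' h h' (tb2 i).2.1)) (cf_pos G G' h h' (tb2 i).2.2.1))
      (cf_pos G G' h h' (tb2 i).2.2.2.1)) h2
    calc (0 : ℝ) < _ := h3
      _ = _ := by ring
  · unfold D
    rw [hom_ex, hom_ex, hom_ex, hom_ex, d4_cast]
    have h1 : dz (P 0) (P 1) (P 2) (P 3) = -1008 := by decide +kernel
    rw [h1]
    refine mul_ne_zero (mul_ne_zero (mul_ne_zero (mul_ne_zero (cf_pos G G' h h' _).ne'
      (cf_pos G G' h h' _).ne') (cf_pos G G' h h' _).ne') (cf_pos G G' h h' _).ne') ?_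
    norm_num
  · refine nrm _ _ h.le ?_
    simp [ex, cf, P]
    ring
  · refine nrm _ _ h'.le ?_
    simp [ex, cf, P]
    ring
  all_goals
    refine nrm _ _ zero_le_one ?_
    simp [ex, cf, P]
    norm_num

end Pool.Agent.LKU.H59
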